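import Mathlib

namespace Pool.Agent.Results.MP_721462_co.No

open Finset

section Defs
variable {V : Type} [Fintype V] [DecidableEq V]

/-- `D E` orders the edge `E`: a bijection from `E` onto the `r` positions. -/
def IsOrientation (r : ℕ) (H : Finset (Finset V)) (D : Finset V → V → Fin r) : Prop :=
  ∀ E ∈ H, Set.BijOn (D E) E Set.univ

/-- `d_P(A)`. -/
def dP {r : ℕ} (H : Finset (Finset V)) (D : Finset V → V → Fin r) (P : Finset (Fin r))
    (A : Finset V) : ℕ := (H.filter fun E => A ⊆ E ∧ A.image (D E) = P).card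

/-- `f(D,p,k)`. -/
def fD {r : ℕ} (p k : ℕ) (H : Finset (Finset V)) (D : Finset V → V → Fin r) : ℕ :=
  ((powersetCard p (univ : Finset V)).filter fun A =>
    ∀ P ∈ powersetCard p (univ : Finset (Fin r)), k ≤ dP H D P A).card

/-- `f(H,p,k)`: the minimum over all orientations. -/
noncomputable def fH (r p k : ℕ) (H : Finset (Finset V)) : ℕ :=
  sInf {m | ∃ D, IsOrientation r H D ∧ fD p k H D = m}

/-- `b(H,p)`. -/
noncomputable def bH (r p : ℕ) (H : Finset (Finset V)) : ℕ :=
  sSup {m | ∃ B : Finset (Finset V), B ⊆ powersetCard p univ ∧ B.card = m ∧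
    ∃ c : Finset V → Fin (r.choose p), ∀ E ∈ H, powersetCard p E ⊆ B →
      ¬ ∃ k, ∀ A ∈ powersetCard p E, c A = k}
end Defs

lemma ramsey {K : Type} [Fintype K] [DecidableEq K] (s : ℕ) : ∀ n : K → ℕ, ∑ k, n k = s →
    ∃ N, ∀ (α : Type) [DecidableEq α] (S : Finset α) (c : Finset α → K), N ≤ S.card →
      (∃ k, 0 < n k) → ∃ k, ∃ T ⊆ S, T.card = n k ∧ ∀ A ⊆ T, A.card = 2 → c A = k := by
  induction s with
  | zero =>
    intro n hn
    refine ⟨0, fun α _ S c _ ⟨k, hk⟩ => ?_⟩
    have := (Finset.sum_eq_zero_iff.1 hn) k (mem_univ _)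
    omega
  | succ s ih =>
    intro n hn
    by_cases h1 : ∃ k, n k ≤ 1
    · obtain ⟨k, hk⟩ := h1
      refine ⟨1, fun α _ S c hS _ => ?_⟩
      obtain ⟨T, hT, hc⟩ := Finset.exists_subset_card_eq (s := S) (n := n k) (by omega)
      refine ⟨k, T, hT, hc, fun A hA h2 => ?_⟩
      have := card_le_card hA
      omega
    · push Not at h1
      have hs : ∀ k, ∑ j, Function.update n k (n k - 1) j = s := by
        intro k
        rw [Finset.sum_update_of_mem (mem_univ k)]
        have := Finset.add_sum_erase univ n (mem_univ k)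
        rw [← Finset.sdiff_singleton_eq_erase] at this
        have := h1 k
        omega
      choose N hN using fun k => ih _ (hs k)
      refine ⟨1 + ∑ k, N k, fun α _ S c hS _ => ?_⟩
      obtain ⟨v, hv⟩ : S.Nonempty := card_pos.1 (by omega)
      have hsum : (S.erase v).card = ∑ k, ((S.erase v).filter fun u => c {v, u} = k).card :=
        card_eq_sum_card_fiberwise (fun _ _ => mem_univ _)
      have hcard := card_erase_of_mem hv
      obtain ⟨k, -, hk⟩ : ∃ k ∈ (univ : Finset K),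
          N k ≤ ((S.erase v).filter fun u => c {v, u} = k).card := by
        apply Finset.exists_le_of_sum_le
        · rcases isEmpty_or_nonempty K with h | h
          · simp at hn
          · exact univ_nonempty
        · omega
      obtain ⟨j, T, hT, hc, hm⟩ := hN k α _ c hk ⟨k, by have := h1 k; simp; omega⟩
      have hTS : T ⊆ S := fun x hx => mem_of_mem_erase (mem_filter.1 (hT hx)).1
      by_cases hj : j = k
      · subst hj
        have hvT : v ∉ T := fun h => by simpa using (mem_filter.1 (hT h)).1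
        refine ⟨j, insert v T, insert_subset hv hTS, ?_, fun A hA h2 => ?_⟩
        · rw [card_insert_of_notMem hvT, hc]; have := h1 j; simp; omega
        · by_cases hvA : v ∈ A
          · obtain ⟨u, hu⟩ : ∃ u, A.erase v = {u} := card_eq_one.1 (by
              rw [card_erase_of_mem hvA, h2])
            have h3 : u ∈ A.erase v := by rw [hu]; exact mem_singleton_self u
            have h4 : u ∈ T := by
              rcases mem_insert.1 (hA (mem_of_mem_erase h3)) with h | h
              · exact absurd h (ne_of_mem_erase h3)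
              · exact h
            have h5 : A = {v, u} := by rw [← insert_erase hvA, hu]
            rw [h5]; exact (mem_filter.1 (hT h4)).2
          · exact hm A (fun x hx => by
              rcases mem_insert.1 (hA hx) with h | h
              · exact absurd (h ▸ hx) hvA
              · exact h) h2
      · exact ⟨j, T, hTS, by rw [hc, Function.update_of_ne hj], hm⟩

abbrev K := {P : Finset (Fin 4) // P.card = 2}

def Valid {α : Type} (H : Finset (Finset α)) (c : Finset α → K) : Prop :=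
  ∀ E ∈ H, ¬ ∃ k, ∀ A ⊆ E, A.card = 2 → c A = k

def P1 : K := ⟨{0, 1}, by decide⟩
def P2 : K := ⟨{2, 3}, by decide⟩

lemma sender : ∃ (N : ℕ) (H1 : Finset (Finset (Fin N))) (e0 : Finset (Fin N)),
    (∀ E ∈ H1, E.card = 4) ∧ e0.card = 4 ∧ (∃ c, Valid H1 c) ∧
      ∀ c, Valid H1 c → ∃ k, ∀ A ⊆ e0, A.card = 2 → c A = k := by
  classical
  obtain ⟨N, hN⟩ := ramsey (K := K) _ (fun _ => 4) rfl
  have hex : ∃ m, ∃ H : Finset (Finset (Fin N)), H.card = m ∧ (∀ E ∈ H, E.card = 4) ∧
      ∀ c, ¬ Valid H c := by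
    refine ⟨_, powersetCard 4 univ, rfl, fun E hE => (mem_powersetCard.1 hE).2, fun c hc => ?_⟩
    obtain ⟨k, T, -, h4, hm⟩ := hN (Fin N) univ c (by simp) ⟨P1, by norm_num⟩
    exact hc T (mem_powersetCard.2 ⟨subset_univ _, h4⟩) ⟨k, hm⟩
  obtain ⟨H, hH, h4, hn⟩ := Nat.find_spec hex
  obtain ⟨e0, he0⟩ : H.Nonempty := by
    rw [nonempty_iff_ne_empty]
    rintro rfl
    exact hn (fun _ => P1) (fun E hE => by simp at hE)
  refine ⟨N, H.erase e0, e0, fun E hE => h4 E (mem_of_mem_erase hE), h4 e0 he0, ?_, ?_⟩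
  · by_contra hcon
    push Not at hcon
    have h1 := Nat.find_min' hex ⟨H.erase e0, rfl, fun E hE => h4 E (mem_of_mem_erase hE), hcon⟩
    have h2 := card_erase_of_mem he0
    have h3 := card_pos.2 ⟨e0, he0⟩
    omega
  · intro c hc
    by_contra hcon
    refine hn c fun E hE => ?_
    by_cases h : E = e0
    · rw [h]; exact hcon
    · exact hc E (mem_erase.2 ⟨h, hE⟩)

abbrev Tst := {p : K × K // p.1 ≠ p.2}
instance : DecidableEq Tst := inferInstance
instance : Fintype Tst := inferInstance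
abbrev Lnk := Tst × {q : Fin 4 × Fin 4 // q.1 ≠ q.2}
instance : DecidableEq Lnk := inferInstance
instance : Fintype Lnk := inferInstance
abbrev V (N : ℕ) := (K × Bool) ⊕ (Tst × Fin 4) ⊕ (Lnk × Fin N)

instance (N : ℕ) : DecidableEq (V N) := inferInstance
instance (N : ℕ) : Fintype (V N) := inferInstance

def idx (l : Lnk) : K := if l.2.1.1.1 / 2 = l.2.1.2.1 / 2 then l.1.1.1 else l.1.1.2

def T {N : ℕ} (t : Tst) (u : Fin 4) : V N := Sum.inr (Sum.inl (t, u))

section Main
variable {N : ℕ} (w0 w1 w2 w3 : Fin N)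

def phi (l : Lnk) (x : Fin N) : V N :=
  if x = w0 then Sum.inl (idx l, false) else if x = w1 then Sum.inl (idx l, true)
  else if x = w2 then T l.1 l.2.1.1 else if x = w3 then T l.1 l.2.1.2 else Sum.inr (Sum.inr (l, x))

def psi (l : Lnk) : V N → Fin N
  | Sum.inl (_, false) => w0
  | Sum.inl (_, true) => w1
  | Sum.inr (Sum.inl (_, u)) => if u = l.2.1.1 then w2 else w3
  | Sum.inr (Sum.inr (_, x)) => x

lemma psi_phi (l : Lnk) (x : Fin N) : psi w0 w1 w2 w3 l (phi w0 w1 w2 w3 l x) = x := by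
  have := l.2.2
  unfold phi
  split_ifs <;> simp_all [psi, T, eq_comm]

lemma phi_inj (l : Lnk) : Function.Injective (phi w0 w1 w2 w3 l) :=
  Function.LeftInverse.injective (psi_phi w0 w1 w2 w3 l)

def HH (H1 : Finset (Finset (Fin N))) : Finset (Finset (V N)) :=
  (univ.biUnion fun l : Lnk => H1.image fun E => E.image (phi w0 w1 w2 w3 l)) ∪
    univ.image fun t : Tst => univ.image (T t)

open Classical in
noncomputable def cs (k0 : K) (c1 : Finset (Fin N) → K) (A : Finset (V N)) : K :=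
  if h : ∃ g : Lnk × Fin N, Sum.inr (Sum.inr g) ∈ A then
    Equiv.swap k0 (idx h.choose.1) (c1 (A.image (psi w0 w1 w2 w3 h.choose.1)))
  else if h : ∃ r : K × Bool, Sum.inl r ∈ A then h.choose.1
  else if h : ∃ l : Lnk, A = {T l.1 l.2.1.1, T l.1 l.2.1.2} then idx h.choose else k0

lemma cs_test (k0 : K) (c1 : Finset (Fin N) → K) (l : Lnk) :
    cs w0 w1 w2 w3 k0 c1 {T l.1 l.2.1.1, T l.1 l.2.1.2} = idx l := by
  have h : ∃ l' : Lnk, ({T l.1 l.2.1.1, T l.1 l.2.1.2} : Finset (V N)) =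
      {T l'.1 l'.2.1.1, T l'.1 l'.2.1.2} := ⟨l, rfl⟩
  unfold cs
  rw [dif_neg (by simp [T]), dif_neg (by simp [T]), dif_pos h]
  have h1 := h.choose_spec
  generalize h.choose = l' at h1
  have h2 : T l.1 l.2.1.1 ∈ ({T l'.1 l'.2.1.1, T l'.1 l'.2.1.2} : Finset (V N)) := by
    rw [← h1]; simp
  have h3 : T l.1 l.2.1.2 ∈ ({T l'.1 l'.2.1.1, T l'.1 l'.2.1.2} : Finset (V N)) := by
    rw [← h1]; simp
  have h4 := l.2.2
  simp only [T, mem_insert, mem_singleton, Sum.inr.injEq, Sum.inl.injEq, Prod.mk.injEq] at h2 h3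
  unfold idx
  rcases h2 with ⟨a, b⟩ | ⟨a, b⟩ <;> rcases h3 with ⟨-, d⟩ | ⟨-, d⟩
  · exact absurd (b.trans d.symm) h4
  · rw [a, b, d]
  · rw [a, b, d]; simp only [eq_comm]
  · exact absurd (b.trans d.symm) h4

lemma cs_phi (h01 : w1 ≠ w0) (h02 : w2 ≠ w0) (h03 : w3 ≠ w0) (h12 : w2 ≠ w1) (h13 : w3 ≠ w1)
    (h23 : w3 ≠ w2) (k0 : K) (c1 : Finset (Fin N) → K)
    (hk : ∀ A ⊆ ({w0, w1, w2, w3} : Finset (Fin N)), A.card = 2 → c1 A = k0)
    (l : Lnk) (A : Finset (Fin N)) (hA : A.card = 2) :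
    cs w0 w1 w2 w3 k0 c1 (A.image (phi w0 w1 w2 w3 l)) = Equiv.swap k0 (idx l) (c1 A) := by
  by_cases h : ∃ g : Lnk × Fin N, Sum.inr (Sum.inr g) ∈ A.image (phi w0 w1 w2 w3 l)
  · unfold cs
    rw [dif_pos h]
    have h1 := h.choose_spec
    generalize h.choose = g at h1
    obtain ⟨x, -, hx⟩ := mem_image.1 h1
    have : g.1 = l := by
      unfold phi at hx
      split_ifs at hx <;> simp [T] at hx
      rw [← hx]
    rw [this, image_image]
    congr 2
    ext y
    simp [psi_phi]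
  · have hsub : A ⊆ {w0, w1, w2, w3} := by
      intro x hx
      by_contra hn
      simp only [mem_insert, mem_singleton, not_or] at hn
      exact h ⟨(l, x), mem_image.2 ⟨x, hx, by simp [phi, hn]⟩⟩
    rw [hk A hsub hA, Equiv.swap_apply_left]
    by_cases h' : ∃ r : K × Bool, Sum.inl r ∈ A.image (phi w0 w1 w2 w3 l)
    · unfold cs
      rw [dif_neg h, dif_pos h']
      have h1 := h'.choose_spec
      generalize h'.choose = g at h1
      obtain ⟨x, -, hx⟩ := mem_image.1 h1
      unfold phi at hx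
      split_ifs at hx <;> simp [T] at hx <;> rw [← hx]
    · have h0 : w0 ∉ A := fun hx => h' ⟨(idx l, false), mem_image.2 ⟨_, hx, by simp [phi]⟩⟩
      have h1 : w1 ∉ A := fun hx => h' ⟨(idx l, true), mem_image.2 ⟨_, hx, by simp [phi, h01]⟩⟩
      have h2 : A = {w2, w3} := by
        apply eq_of_subset_of_card_le
        · intro x hx
          have := hsub hx
          simp only [mem_insert, mem_singleton] at this ⊢
          rcases this with rfl | rfl | h | h
          · exact absurd hx h0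
          · exact absurd hx h1
          · exact Or.inl h
          · exact Or.inr h
        · rw [hA]; exact card_le_two
      rw [h2, ← cs_test w0 w1 w2 w3 k0 c1 l]
      congr 1
      simp [phi, h02, h03, h12, h13, h23]

lemma T_inj (t : Tst) : Function.Injective (T (N := N) t) := by
  intro a b h; simpa [T] using h

lemma pull (H1 : Finset (Finset (Fin N))) (c : Finset (V N) → K)
    (hc : Valid (HH w0 w1 w2 w3 H1) c) (l : Lnk) :
    Valid H1 fun A => c (A.image (phi w0 w1 w2 w3 l)) := by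
  rintro E hE ⟨k, hk⟩
  refine hc (E.image (phi w0 w1 w2 w3 l)) (mem_union_left _ (mem_biUnion.2
    ⟨l, mem_univ _, mem_image_of_mem _ hE⟩)) ⟨k, fun A hA h2 => ?_⟩
  obtain ⟨B, hB, rfl⟩ := subset_image_iff.1 hA
  rw [card_image_of_injective _ (phi_inj w0 w1 w2 w3 l)] at h2
  exact hk B hB h2

end Main

lemma pre {α : Type} [DecidableEq α] (E : Finset α) (D : α → Fin 4)
    (h : Set.BijOn D E Set.univ) (P : K) :
    ∃ A ⊆ E, A.card = 2 ∧ A.image D = P.1 := by
  have h1 : (E.filter fun x => D x ∈ P.1).image D = P.1 := by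
    ext y
    simp only [mem_image, mem_filter]
    constructor
    · rintro ⟨x, ⟨-, hx⟩, rfl⟩; exact hx
    · intro hy
      obtain ⟨x, hx, rfl⟩ := h.surjOn (Set.mem_univ y)
      exact ⟨x, ⟨hx, hy⟩, rfl⟩
  refine ⟨_, filter_subset _ _, ?_, h1⟩
  have h2 := card_image_of_injOn (s := E.filter fun x => D x ∈ P.1) (f := D)
    (h.injOn.mono (fun x hx => (mem_filter.1 hx).1))
  rw [← h2, h1, P.2]

lemma fzero {α : Type} [Fintype α] [DecidableEq α] (H : Finset (Finset α))
    (D : Finset α → α → Fin 4) (hf : fD 2 1 H D = 0) (A : Finset α) :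
    ∃ P : K, A.card = 2 → ∀ E ∈ H, A ⊆ E → A.image (D E) ≠ P.1 := by
  by_cases hA : A.card = 2
  · have := filter_eq_empty_iff.1 (card_eq_zero.1 hf)
      (mem_powersetCard.2 ⟨subset_univ A, hA⟩)
    push Not at this
    obtain ⟨P, hP, h⟩ := this
    refine ⟨⟨P, (mem_powersetCard.1 hP).2⟩, fun _ E hE hAE hne => ?_⟩
    have : 0 < dP H D P A := card_pos.2 ⟨E, mem_filter.2 ⟨hE, hAE, hne⟩⟩
    omega
  · exact ⟨P1, fun h => absurd h hA⟩

lemma sub4 {α : Type} [DecidableEq α] (a b c d : α) :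
    ({a, b} : Finset α) ⊆ {a, b, c, d} ∧ ({c, d} : Finset α) ⊆ {a, b, c, d} := by
  constructor <;> intro x <;> simp only [mem_insert, mem_singleton] <;> tauto

theorem result : ∃ (V : Type) (_ : Fintype V) (_ : DecidableEq V) (H : Finset (Finset V)),
    (∀ E ∈ H, E.card = 4) ∧ (Fintype.card V).choose 2 - bH 4 2 H < fH 4 2 1 H := by
  obtain ⟨N, H1, e0, h4, he, ⟨c1, hc1⟩, hall⟩ := sender
  obtain ⟨w0, e1, hw0, rfl, he1⟩ := card_eq_succ.1 he
  obtain ⟨w1, w2, w3, h12, h13, h23, rfl⟩ := card_eq_three.1 he1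
  simp only [mem_insert, mem_singleton, not_or] at hw0
  obtain ⟨h01, h02, h03⟩ := hw0
  obtain ⟨k0, hk0⟩ := hall c1 hc1
  have hU : ∀ E ∈ HH w0 w1 w2 w3 H1, E.card = 4 := by
    intro E hE
    rcases mem_union.1 hE with h | h
    · obtain ⟨l, -, h⟩ := mem_biUnion.1 h
      obtain ⟨E', hE', rfl⟩ := mem_image.1 h
      rw [card_image_of_injective _ (phi_inj w0 w1 w2 w3 l), h4 E' hE']
    · obtain ⟨t, -, rfl⟩ := mem_image.1 h
      rw [card_image_of_injective _ (T_inj t)]; simp
  refine ⟨V N, inferInstance, inferInstance, HH w0 w1 w2 w3 H1, hU, ?_⟩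
  have hval : Valid (HH w0 w1 w2 w3 H1) (cs w0 w1 w2 w3 k0 c1) := by
    rintro E hE ⟨k, hk⟩
    rcases mem_union.1 hE with h | h
    · obtain ⟨l, -, h⟩ := mem_biUnion.1 h
      obtain ⟨E', hE', rfl⟩ := mem_image.1 h
      refine hc1 E' hE' ⟨Equiv.swap k0 (idx l) k, fun A hA h2 => ?_⟩
      rw [← hk _ (image_subset_image hA) (by
        rw [card_image_of_injective _ (phi_inj w0 w1 w2 w3 l), h2]),
        cs_phi w0 w1 w2 w3 (Ne.symm h01) (Ne.symm h02) (Ne.symm h03) h12.symm h13.symm h23.symm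
          k0 c1 hk0 l A h2, Equiv.swap_apply_self]
    · obtain ⟨t, -, rfl⟩ := mem_image.1 h
      have a1 := cs_test w0 w1 w2 w3 k0 c1 (t, ⟨(0, 1), by decide⟩)
      have a2 := cs_test w0 w1 w2 w3 k0 c1 (t, ⟨(0, 2), by decide⟩)
      rw [hk _ (by intro x; simp only [mem_insert, mem_singleton]; rintro (rfl | rfl) <;> simp)
        (card_pair (fun h => by simpa using T_inj t h))] at a1 a2
      apply t.2
      simpa [idx] using a1.symm.trans a2
  have hb : (Fintype.card (V N)).choose 2 ≤ bH 4 2 (HH w0 w1 w2 w3 H1) := by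
    apply le_csSup
    · refine ⟨(powersetCard 2 (univ : Finset (V N))).card, ?_⟩
      rintro m ⟨B, hB, rfl, -⟩
      exact card_le_card hB
    · have e : K ≃ Fin (Nat.choose 4 2) := Fintype.equivFinOfCardEq (by decide +kernel)
      refine ⟨powersetCard 2 univ, Subset.refl _, by simp,
        fun A => e (cs w0 w1 w2 w3 k0 c1 A), fun E hE _ ⟨k, hk⟩ => hval E hE ⟨e.symm k, ?_⟩⟩
      intro A hA h2
      rw [← hk A (mem_powersetCard.2 ⟨hA, h2⟩)]; simp
  rw [Nat.sub_eq_zero_of_le hb, Nat.pos_iff_ne_zero]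
  intro h0
  rcases Nat.sInf_eq_zero.1 h0 with ⟨D, hD, hf⟩ | hemp
  · have hf' := fzero _ D hf
    choose c hc using hf'
    have hv : Valid (HH w0 w1 w2 w3 H1) c := by
      rintro E hE ⟨k, hk⟩
      obtain ⟨A, hA, h2, hi⟩ := pre E (D E) (hD E hE) k
      exact hc A h2 E hE hA (by rw [hi, hk A hA h2])
    set g : K → K := fun k => c {Sum.inl (k, false), Sum.inl (k, true)} with hg
    have hl : ∀ l : Lnk, c {T l.1 l.2.1.1, T l.1 l.2.1.2} = g (idx l) := by
      intro l
      obtain ⟨k, hk⟩ := hall _ (pull w0 w1 w2 w3 H1 c hv l)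
      have a1 := hk {w0, w1} (sub4 w0 w1 w2 w3).1 (card_pair h01)
      have a2 := hk {w2, w3} (sub4 w0 w1 w2 w3).2 (card_pair h23)
      simp [phi, Ne.symm h01, Ne.symm h02, Ne.symm h03, h12.symm, h13.symm, h23.symm] at a1 a2
      rw [a2, ← a1]
    have hT : ∀ t : Tst, univ.image (T t) ∈ HH w0 w1 w2 w3 H1 := fun t =>
      mem_union_right _ (mem_image_of_mem _ (mem_univ t))
    have hpair : ∀ (t : Tst) (A : Finset (V N)), A ⊆ univ.image (T t) → A.card = 2 →
        ∃ q : {q : Fin 4 × Fin 4 // q.1 ≠ q.2}, A = {T t q.1.1, T t q.1.2} := by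
      intro t A hA h2
      obtain ⟨x, y, hxy, rfl⟩ := card_eq_two.1 h2
      obtain ⟨a, -, rfl⟩ := mem_image.1 (hA (mem_insert_self x _))
      obtain ⟨b, -, rfl⟩ := mem_image.1 (hA (mem_insert_of_mem (mem_singleton_self y)))
      exact ⟨⟨(a, b), fun h => hxy (congrArg _ h)⟩, rfl⟩
    have hinj : Function.Injective g := by
      intro i j hij
      by_contra hne
      refine hv _ (hT ⟨(i, j), hne⟩) ⟨g i, fun A hA h2 => ?_⟩
      obtain ⟨q, rfl⟩ := hpair _ A hA h2
      rw [hl (⟨(i, j), hne⟩, q)]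
      unfold idx
      split_ifs
      · rfl
      · exact hij.symm
    obtain ⟨i, hi⟩ := Finite.injective_iff_surjective.1 hinj P1
    obtain ⟨j, hj⟩ := Finite.injective_iff_surjective.1 hinj P2
    have hne : i ≠ j := by
      rintro rfl
      exact absurd (hi.symm.trans hj) (by decide)
    set t : Tst := ⟨(i, j), hne⟩ with ht
    obtain ⟨X, hX, hX2, hXi⟩ := pre _ _ (hD _ (hT t)) P1
    obtain ⟨Y, hY, hY2, hYi⟩ := pre _ _ (hD _ (hT t)) P2
    have b1 := hc X hX2 _ (hT t) hX
    have b2 := hc Y hY2 _ (hT t) hY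
    have hdis : ∀ z, z ∈ X → z ∈ Y → False := by
      intro z h1 h2
      have a1 := mem_image_of_mem (D (univ.image (T t))) h1
      have a2 := mem_image_of_mem (D (univ.image (T t))) h2
      rw [hXi] at a1; rw [hYi] at a2
      exact (by decide : ∀ y : Fin 4, y ∈ P1.1 → y ∈ P2.1 → False) _ a1 a2
    rw [hXi] at b1; rw [hYi] at b2
    obtain ⟨q, rfl⟩ := hpair t X hX hX2
    obtain ⟨q', rfl⟩ := hpair t Y hY hY2
    rw [hl (t, q)] at b1; rw [hl (t, q')] at b2
    have d1 : q.1.1 ≠ q'.1.1 := fun h => hdis (T t q.1.1) (by simp) (by simp [h])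
    have d2 : q.1.1 ≠ q'.1.2 := fun h => hdis (T t q.1.1) (by simp) (by simp [h])
    have d3 : q.1.2 ≠ q'.1.1 := fun h => hdis (T t q.1.2) (by simp) (by simp [h])
    have d4 : q.1.2 ≠ q'.1.2 := fun h => hdis (T t q.1.2) (by simp) (by simp [h])
    have key := (by decide : ∀ a b a' b' : Fin 4, a ≠ b → a' ≠ b' → a ≠ a' → a ≠ b' → b ≠ a' →
      b ≠ b' → (a.1 / 2 = b.1 / 2 ∨ ¬ a'.1 / 2 = b'.1 / 2)) _ _ _ _ q.2 q'.2 d1 d2 d3 d4
    rcases key with h | h
    · apply b1; simp only [idx, if_pos h]; exact congrArg _ hi.symm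
    · apply b2; simp only [idx, if_neg h]; exact congrArg _ hj.symm
  · have : ∀ E : Finset (V N), ∃ D : V N → Fin 4, E.card = 4 → Set.BijOn D E Set.univ := by
      intro E
      by_cases hE : E.card = 4
      · have e := Finset.equivFinOfCardEq hE
        refine ⟨fun x => if h : x ∈ E then e ⟨x, h⟩ else 0, fun _ => ⟨fun _ _ => trivial, ?_, ?_⟩⟩
        · intro x hx y hy hxy
          have hx' : x ∈ E := hx
          have hy' : y ∈ E := hy
          simpa [hx', hy'] using hxy
        · intro y _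
          exact ⟨(e.symm y).1, (e.symm y).2, by simp⟩
      · exact ⟨fun _ => 0, fun h => absurd h hE⟩
    choose D hD using this
    have hm : fD 2 1 (HH w0 w1 w2 w3 H1) D ∈ {m | ∃ D, IsOrientation 4 (HH w0 w1 w2 w3 H1) D ∧
        fD 2 1 (HH w0 w1 w2 w3 H1) D = m} := ⟨D, fun E hE => hD E (hU E hE), rfl⟩
    rw [hemp] at hm
    exact hm

end Pool.Agent.Results.MP_721462_co.No
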